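import Pool.Agent.H95.ND.Targets
import Pool.Agent.H30.E7.TRF
import Pool.Agent.H42.E7.WIN

/-!
# Bridge from Part D to Part E7: `I_PALM`

Windows of scale `i` are grouped in windows of scale `i + h + 2`, one residue class at a time.
-/

open MeasureTheory ProbabilityTheory
open scoped ENNReal

namespace Pool.Agent.H97.BR

open Pool.Agent.H99.NS Pool.Agent.H22.LPP Pool.Agent.H76.ND
open Pool.Agent.H97.NF (PEnv eA eB PN glue)
open Pool.Agent.H97.ST (BoxW Rm Win Lk Mid diag I_PALM T_TRF T_WIN)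
open Pool.Agent.H95.INS (BxAt Bx)
open Pool.Agent.H95.ND (zc win gl2 Xf PALMs)

theorem box_sub (c : Cst) (X : ℤ) (hA : 200 ≤ c.A) (i h k' : ℕ) (j m : ℤ) (hk : i + h + 2 ≤ k') :
    BoxW j (i + 1) (m / 16) (Rm h (i + 1)) ⊆
      BxAt (dk c X k') (zc j (i + h + 2) (m / 16 ^ (h + 2))) := by
  rintro ⟨t, x⟩ ⟨h1, h2, h3⟩
  simp only at h1 h2 h3
  have p64 : (0 : ℤ) < 64 ^ i := by positivity
  have q64 : (64 : ℤ) ^ (i + 1) ≤ 64 ^ (k' - 1) := pow_le_pow_right₀ (by norm_num) (by omega)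
  have e64 : (64 : ℤ) ^ (i + 1) = 64 * 64 ^ i := by rw [pow_succ]; ring
  have a1 : |t - j| ≤ 32 * 64 ^ i := by rw [e64] at h1; linarith
  have a2 := abs_le.1 a1
  have p16 : (0 : ℤ) < 16 ^ i := by positivity
  have pP : (0 : ℤ) < 16 ^ (i + h + 2) := by positivity
  have qP : (16 : ℤ) ^ (i + h + 2) ≤ 16 ^ k' := pow_le_pow_right₀ (by norm_num) (by omega)
  have pN : (0 : ℤ) < 16 ^ (h + 2) := by positivity
  have eP : (16 : ℤ) ^ (i + h + 2) = 16 ^ (h + 2) * 16 ^ i := by rw [← pow_add]; congr 1; omega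
  have e16 : (16 : ℤ) ^ (i + 1) = 16 * 16 ^ i := by rw [pow_succ]; ring
  have w1 : m / 16 ^ (h + 2) * 16 ^ (h + 2) ≤ m := Int.ediv_mul_le m pN.ne'
  have w2 : m < (m / 16 ^ (h + 2) + 1) * 16 ^ (h + 2) := Int.lt_ediv_add_one_mul_self m pN
  have w3 : m / 16 * 16 ≤ m := Int.ediv_mul_le m (by norm_num)
  have w4 : m < (m / 16 + 1) * 16 := Int.lt_ediv_add_one_mul_self m (by norm_num)
  obtain ⟨w, hw⟩ : ∃ w, w = m / 16 ^ (h + 2) := ⟨_, rfl⟩
  obtain ⟨u, hu⟩ : ∃ u, u = m / 16 := ⟨_, rfl⟩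
  rw [← hw] at w1 w2 ⊢
  rw [← hu] at w3 w4 h2 h3
  have b1 : u * 16 ^ (i + 1) ≤ m * 16 ^ i := by
    rw [e16, ← mul_assoc]
    exact mul_le_mul_of_nonneg_right w3 p16.le
  have b2 : (m + 1) * 16 ^ i ≤ (u + 1) * 16 ^ (i + 1) := by
    rw [e16, ← mul_assoc]
    exact mul_le_mul_of_nonneg_right (by linarith) p16.le
  have b3 : w * 16 ^ (i + h + 2) ≤ m * 16 ^ i := by
    rw [eP, ← mul_assoc]
    exact mul_le_mul_of_nonneg_right w1 p16.le
  have b4 : (m + 1) * 16 ^ i ≤ (w + 1) * 16 ^ (i + h + 2) := by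
    rw [eP, ← mul_assoc]
    exact mul_le_mul_of_nonneg_right (by linarith) p16.le
  have b5 : Rm h (i + 1) ≤ 16 ^ (i + h + 2) := by
    unfold Rm
    have c1 : (2 : ℤ) ^ h ≤ 16 ^ h := pow_le_pow_left₀ (by norm_num) (by norm_num) h
    have c2 : (16 : ℤ) ^ (i + h + 2) = 16 * 16 ^ h * 16 ^ (i + 1) := by
      rw [show i + h + 2 = 1 + h + (i + 1) by omega, pow_add, pow_add]
      ring
    have c3 : (0 : ℤ) < 16 ^ (i + 1) := by positivity
    rw [c2]
    apply mul_le_mul_of_nonneg_right _ c3.le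
    have c4 : (0 : ℤ) < 16 ^ h := by positivity
    linarith
  have b6 : (16 : ℤ) ^ (i + 1) ≤ 16 ^ (i + h + 2) := pow_le_pow_right₀ (by norm_num) (by omega)
  have b7 : 0 ≤ j % 2 := Int.emod_nonneg j (by norm_num)
  have b8 : j % 2 < 2 := Int.emod_lt_of_pos j (by norm_num)
  have b9 : (1 : ℤ) ≤ 16 ^ (i + h + 2) := by linarith
  have b10 : (200 : ℤ) * 16 ^ k' ≤ c.A * 16 ^ k' := mul_le_mul_of_nonneg_right hA (by positivity)
  refine ⟨?_, ?_, ?_⟩
  · change -(4 * (8 * 64 ^ (k' - 1))) < t - j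
    linarith [a2.1]
  · change t - j ≤ 4 * (8 * 64 ^ (k' - 1))
    linarith [a2.2]
  · change |x - (w * 16 ^ (i + h + 2) + j % 2)| < c.A * 16 ^ k'
    have d1 : (w + 1) * 16 ^ (i + h + 2) = w * 16 ^ (i + h + 2) + 16 ^ (i + h + 2) := by ring
    have d2 : (u + 1) * (16 : ℤ) ^ (i + 1) = u * 16 ^ (i + 1) + 16 ^ (i + 1) := by ring
    have d3 : (m + 1) * (16 : ℤ) ^ i = m * 16 ^ i + 16 ^ i := by ring
    rw [abs_lt]
    constructor <;> linarith

theorem gl2_eq (Q : Set Site) (E : PEnv) (out : Env) : gl2 Q E out = glue Q (diag out) E := by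
  funext x
  unfold gl2 glue diag
  rfl

theorem win_sub (i h : ℕ) (w r : ℤ) (hr0 : 0 ≤ r) (hr : r < 16 ^ (h + 2)) :
    Win i (w * 16 ^ (h + 2) + r) ⊆ win (i + h + 2) w := by
  rintro x ⟨h1, h2⟩
  have p16 : (0 : ℤ) < 16 ^ i := by positivity
  have eP : (16 : ℤ) ^ (i + h + 2) = 16 ^ (h + 2) * 16 ^ i := by rw [← pow_add]; congr 1; omega
  refine ⟨?_, ?_⟩
  · rw [eP, ← mul_assoc]
    exact (mul_le_mul_of_nonneg_right (by linarith) p16.le).trans h1
  · rw [eP, ← mul_assoc]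
    refine h2.trans_le (mul_le_mul_of_nonneg_right ?_ p16.le)
    have : (w + 1) * (16 : ℤ) ^ (h + 2) = w * 16 ^ (h + 2) + 16 ^ (h + 2) := by ring
    linarith

theorem exp_four (h : ℕ) : (16 : ℝ) ^ h * Real.exp (-(4 * h)) ≤ Real.exp (-h) := by
  have e1 : (16 : ℝ) ≤ Real.exp 3 := by
    have h1 := Real.exp_one_gt_d9
    have h2 : Real.exp 3 = Real.exp 1 ^ 3 := by rw [← Real.exp_nat_mul]; norm_num
    rw [h2]
    have h3 : (2.7 : ℝ) ^ 3 ≤ Real.exp 1 ^ 3 := pow_le_pow_left₀ (by norm_num) (by linarith) 3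
    norm_num at h3
    linarith
  have e2 : (16 : ℝ) ^ h ≤ Real.exp (3 * h) := by
    calc (16 : ℝ) ^ h ≤ Real.exp 3 ^ h := pow_le_pow_left₀ (by norm_num) e1 h
      _ = Real.exp (3 * h) := by rw [← Real.exp_nat_mul]; congr 1; ring
  calc (16 : ℝ) ^ h * Real.exp (-(4 * h)) ≤ Real.exp (3 * h) * Real.exp (-(4 * h)) :=
        mul_le_mul_of_nonneg_right e2 (Real.exp_pos _).le
    _ = Real.exp (-h) := by rw [← Real.exp_add]; congr 1; ring

theorem exists_k (c' : ℝ) (hc' : 0 < c') : ∃ k₂ : ℕ, ∀ k : ℕ, k₂ ≤ k →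
    4 * (k : ℝ) ≤ Real.exp (c' * k) := by
  obtain ⟨k₂, hk₂⟩ := exists_nat_ge (8 / c' ^ 2)
  refine ⟨k₂, fun k hk => ?_⟩
  have h1 : (k₂ : ℝ) ≤ k := by exact_mod_cast hk
  have h2 : 8 ≤ k * c' ^ 2 := by
    have := hk₂.trans h1
    rwa [div_le_iff₀ (by positivity)] at this
  have h3 := Real.quadratic_le_exp_of_nonneg (x := c' * k) (by positivity)
  have hk0 : (0 : ℝ) ≤ k := Nat.cast_nonneg k
  have h4 : 0 ≤ c' * k := by positivity
  have h5 : 4 * (k : ℝ) ≤ (c' * k) ^ 2 / 2 := by nlinarith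
  linarith

theorem i_PALM (hL : B_LAMM) (hT : T_TRF) (c : Cst) (M : ℝ) (hM : 4 ≤ M)
    (hA : 200 ≤ c.A) (hP : PALMs c M) : I_PALM c.q := by
  obtain ⟨C, c', hC, hc', K₁, hP⟩ := hP
  obtain ⟨k₂, hk₂⟩ := exists_k c' hc'
  refine ⟨512 * C + 1, 1, 1, 4, max K₁ k₂, by positivity, one_pos, one_pos, ?_⟩
  intro k hk j hj i h hki hik hh ρ Bad β hβ hρ hρ0 hBm hB
  have hj24 : |j| ≤ 24 * 64 ^ (k - 1) := by
    have hp : (0 : ℤ) < 64 ^ (k - 1) := by positivity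
    unfold Mid at hj
    linarith
  have hN : NeZero (16 ^ (h + 2)) := ⟨by positivity⟩
  rcases le_or_gt β 1 with hb1 | hb1
  swap
  · -- trivial bound
    have h1 : ∑' m : ℤ, PN c.q (ρ m) {E | Lk k (eA E) j ∈ Win i m ∧ Bad m E} ≤ 1 := by
      refine le_trans (ENNReal.tsum_le_tsum fun m => measure_mono ?_)
        (((hT c.q (fun ω => Lk k ω j) (fun _ => True) i h ρ
        (hL _ _ j).2.1).2).trans prob_le_one)
      intro E hE
      exact ⟨hE.1, trivial⟩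
    refine h1.trans ?_
    rw [← ENNReal.ofReal_one]
    apply ENNReal.ofReal_le_ofReal
    have e1 : 1 ≤ √β := Real.one_le_sqrt.2 hb1.le
    have e2 : (1 : ℝ) ≤ 256 ^ h := one_le_pow₀ (by norm_num)
    have e3 : 1 ≤ 256 ^ h * √β := one_le_mul_of_one_le_of_one_le e2 e1
    have e4 := Real.exp_pos (-(1 * (h : ℝ)))
    nlinarith
  set B : ℝ := C * (16 ^ h * β + Real.exp (-(M * h)) + Real.exp (-Real.exp (c' * k))) with hBdef
  have hone : ∀ r : Fin (16 ^ (h + 2)), ∑' w : ℤ, PN c.q (ρ (w * (16 ^ (h + 2) : ℕ) + (r : ℕ)))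
      {E | Lk k (eA E) j ∈ Win i (w * (16 ^ (h + 2) : ℕ) + (r : ℕ)) ∧
        Bad (w * (16 ^ (h + 2) : ℕ) + (r : ℕ)) E} ≤ ENNReal.ofReal B := by
    intro r
    rw [ENNReal.tsum_eq_iSup_sum]
    refine iSup_le fun W => ?_
    have hr0 : (0 : ℤ) ≤ ((r : ℕ) : ℤ) := Int.natCast_nonneg _
    have hr1 : ((r : ℕ) : ℤ) < 16 ^ (h + 2) := by
      have := r.2
      exact_mod_cast this
    have hdiv : ∀ w : ℤ, (w * (16 ^ (h + 2) : ℕ) + (r : ℕ)) / 16 ^ (h + 2) = w := by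
      intro w
      push_cast
      rw [add_comm, Int.add_mul_ediv_right _ _ (by positivity), Int.ediv_eq_zero_of_lt hr0 hr1,
        zero_add]
    have key := hP k i (i + h + 2) h ((le_max_left _ _).trans hk) (by omega) (by omega) (by omega)
      j hj24 (fun w => ρ (w * (16 ^ (h + 2) : ℕ) + (r : ℕ)))
      (fun w => {E | Bad (w * (16 ^ (h + 2) : ℕ) + (r : ℕ)) E}) β hβ (fun w => hBm _) ?_ ?_ W
    · refine le_trans (Finset.sum_le_sum fun w _ => measure_mono ?_) key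
      rintro E ⟨h1, h2⟩
      refine ⟨?_, h2⟩
      have := win_sub i h w (r : ℕ) hr0 hr1
      push_cast at h1
      exact this h1
    · intro w x hx
      apply hρ0
      intro hx'
      apply hx
      have := box_sub c (Xf k) hA i h (i + h + 2) j (w * (16 ^ (h + 2) : ℕ) + (r : ℕ)) le_rfl hx'
      rw [hdiv] at this
      exact this
    · intro w k' hk1 hk2 out
      refine le_trans (measure_mono ?_) (hB (w * (16 ^ (h + 2) : ℕ) + (r : ℕ))
        (BxAt (dk c (Xf k) k') (zc j (i + h + 2) w)) ?_ out)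
      · rintro E ⟨h1, -⟩
        rw [gl2_eq] at h1
        exact h1
      · have := box_sub c (Xf k) hA i h k' j (w * (16 ^ (h + 2) : ℕ) + (r : ℕ)) hk1
        rw [hdiv] at this
        exact this
  have hsum : ∑' m : ℤ, PN c.q (ρ m) {E | Lk k (eA E) j ∈ Win i m ∧ Bad m E} ≤
      ENNReal.ofReal (16 ^ (h + 2) * B) := by
    rw [← (Int.divModEquiv (16 ^ (h + 2))).symm.tsum_eq, ENNReal.tsum_prod', ENNReal.tsum_comm,
      tsum_fintype]
    refine (Finset.sum_le_sum fun r _ => hone r).trans ?_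
    clear_value B
    have e1 : ENNReal.ofReal (16 ^ (h + 2) * B) =
        ((16 ^ (h + 2) : ℕ) : ℝ≥0∞) * ENNReal.ofReal B := by
      rw [ENNReal.ofReal_mul (by positivity),
        show ((16 : ℝ) ^ (h + 2)) = ((16 ^ (h + 2) : ℕ) : ℝ) by push_cast; rfl,
        ENNReal.ofReal_natCast]
    rw [Finset.sum_const, Finset.card_univ, Fintype.card_fin, nsmul_eq_mul, e1]
  refine hsum.trans (ENNReal.ofReal_le_ofReal ?_)
  have hsq : β ≤ √β := by
    have h1 := Real.sq_sqrt hβ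
    have h2 : √β ≤ 1 := by
      rw [← Real.sqrt_one]
      exact Real.sqrt_le_sqrt hb1
    have h3 := Real.sqrt_nonneg β
    nlinarith
  have hhk : (h : ℝ) ≤ k := by
    have : h ≤ k := by omega
    exact_mod_cast this
  have hh0 : (0 : ℝ) ≤ h := Nat.cast_nonneg h
  have x1 : Real.exp (-(M * h)) ≤ Real.exp (-(4 * h)) := by
    rw [Real.exp_le_exp]
    nlinarith
  have x2 : Real.exp (-Real.exp (c' * k)) ≤ Real.exp (-(4 * h)) := by
    rw [Real.exp_le_exp]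
    have := hk₂ k ((le_max_right _ _).trans hk)
    linarith
  have x3 := exp_four h
  have x4 : (16 : ℝ) ^ (h + 2) = 256 * 16 ^ h := by rw [pow_add]; ring
  have x5 : (16 : ℝ) ^ h * 16 ^ h = 256 ^ h := by rw [← mul_pow]; norm_num
  have x6 : (256 : ℝ) ^ h * β ≤ 256 ^ h * √β := mul_le_mul_of_nonneg_left hsq (by positivity)
  have p16 : (0 : ℝ) < 16 ^ h := by positivity
  have y1 : (16 : ℝ) ^ h * Real.exp (-(M * h)) ≤ Real.exp (-h) :=
    (mul_le_mul_of_nonneg_left x1 p16.le).trans x3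
  have y2 : (16 : ℝ) ^ h * Real.exp (-Real.exp (c' * k)) ≤ Real.exp (-h) :=
    (mul_le_mul_of_nonneg_left x2 p16.le).trans x3
  have y0 : (0 : ℝ) ≤ 256 ^ h * √β := by positivity
  have ye : 0 < Real.exp (-(h : ℝ)) := Real.exp_pos _
  rw [one_mul]
  calc (16 : ℝ) ^ (h + 2) * B
      = 256 * C * ((16 ^ h * 16 ^ h) * β + 16 ^ h * Real.exp (-(M * h)) +
          16 ^ h * Real.exp (-Real.exp (c' * k))) := by rw [x4, hBdef]; ring
    _ ≤ 256 * C * (256 ^ h * √β + Real.exp (-h) + Real.exp (-h)) := by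
        rw [x5]
        apply mul_le_mul_of_nonneg_left _ (by positivity)
        linarith
    _ ≤ (512 * C + 1) * (256 ^ h * √β + Real.exp (-h)) := by nlinarith

end Pool.Agent.H97.BR
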