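import Pool.Agent.H76.ND.Targets2
import Pool.Agent.H97.BR.Palm

/-!
# Module IPL of Part D: the input `I_PALM` of Part E7
-/

namespace Pool.Agent.H97.BR

open Pool.Agent.H22.LPP Pool.Agent.H76.ND

theorem pf_IPL (hL : B_LAMM) (hT : Pool.Agent.H97.ST.T_TRF) : T_IPL := by
  intro q _ _ _ ⟨c, M, hcq, hA, hM, hP⟩
  rw [← hcq]
  exact i_PALM hL hT c M (by linarith) hA hP

end Pool.Agent.H97.BR
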