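import Pool.Agent.H95.ND.Targets
import Pool.Agent.H97.ST.Targets

/-!
# Bridge from Part D to Part E7: `I_TOP`
-/

open MeasureTheory ProbabilityTheory
open scoped ENNReal

namespace Pool.Agent.H97.BR

open Pool.Agent.H99.NS Pool.Agent.H22.LPP Pool.Agent.H76.ND
open Pool.Agent.H97.ST (Lk)

/-- A stretched exponential of `2 ^ h` is at most a constant times `(1/4) ^ h`. -/
theorem tl_two (C c s : ℝ) (hC : 0 < C) (hc : 0 < c) (hs : 0 < s) : ∃ C' : ℝ, 0 < C' ∧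
    ∀ h : ℕ, C * Real.exp (-(c * ((2 : ℝ) ^ h) ^ s)) ≤ C' * (1 / 4) ^ h := by
  have hl : 0 < Real.log 2 := Real.log_pos (by norm_num)
  refine ⟨C * Real.exp (2 / (c * s ^ 2)), by positivity, ?_⟩
  intro h
  have hh : (0 : ℝ) ≤ h := Nat.cast_nonneg h
  have e1 : ((2 : ℝ) ^ h) ^ s = Real.exp (h * s * Real.log 2) := by
    rw [← Real.rpow_natCast, ← Real.rpow_mul (by norm_num), Real.rpow_def_of_pos (by norm_num)]
    congr 1
    ring
  have e2 : (1 / 4 : ℝ) ^ h = Real.exp (-(2 * h * Real.log 2)) := by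
    rw [one_div, inv_pow, Real.exp_neg]
    congr 1
    rw [show (4 : ℝ) = 2 ^ 2 by norm_num, ← pow_mul, ← Real.rpow_natCast,
      Real.rpow_def_of_pos (by norm_num)]
    congr 1
    push_cast
    ring
  rw [e1, e2, mul_assoc C, ← Real.exp_add]
  apply mul_le_mul_of_nonneg_left _ hC.le
  rw [Real.exp_le_exp]
  have e3 := Real.quadratic_le_exp_of_nonneg (x := h * s * Real.log 2) (by positivity)
  have e4 : (h * s * Real.log 2) ^ 2 / 2 ≤ Real.exp (h * s * Real.log 2) := by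
    have : 0 ≤ h * s * Real.log 2 := by positivity
    linarith
  obtain ⟨u, hu⟩ : ∃ u, u = h * Real.log 2 := ⟨_, rfl⟩
  have e5 : (h * s * Real.log 2) ^ 2 / 2 = s ^ 2 * u ^ 2 / 2 := by rw [hu]; ring
  rw [e5] at e4
  have e6 : c * (s ^ 2 * u ^ 2 / 2) ≤ c * Real.exp (h * s * Real.log 2) :=
    mul_le_mul_of_nonneg_left e4 hc.le
  have e7 : 2 * u ≤ c * (s ^ 2 * u ^ 2 / 2) + 2 / (c * s ^ 2) := by
    have h1 : 0 ≤ (c * s ^ 2 * u - 2) ^ 2 / (2 * (c * s ^ 2)) := by positivity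
    have h2 : (c * s ^ 2 * u - 2) ^ 2 / (2 * (c * s ^ 2)) =
        c * (s ^ 2 * u ^ 2 / 2) + 2 / (c * s ^ 2) - 2 * u := by
      field_simp
      ring
    linarith
  have e8 : 2 * h * Real.log 2 = 2 * u := by rw [hu]; ring
  rw [e8]
  linarith

theorem i_TOP (q : ℝ) (hT : H95.ND.I_TOP q) : H97.ST.I_TOP q := by
  obtain ⟨C, c, s, hC, hc, hs, K₁, hT⟩ := hT
  obtain ⟨C', hC', h2⟩ := tl_two C c s hC hc hs
  refine ⟨C', 1, max K₁ 1, hC', one_pos, ?_⟩
  intro k hk j hj h _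
  refine le_trans (measure_mono ?_) ((hT k ((le_max_left _ _).trans hk) (2 ^ h)
    (by positivity)).trans (ENNReal.ofReal_le_ofReal (h2 h)))
  intro ω hω
  have hp : (0 : ℤ) < 64 ^ (k - 1) := by positivity
  have hjj := abs_le.1 hj
  refine ⟨j, ?_, ?_, ?_⟩
  · change -(32 * 64 ^ (k - 1)) ≤ j
    linarith
  · change j ≤ 32 * 64 ^ (k - 1)
    linarith
  · have h1 : (2 : ℤ) ^ h * 16 ^ k < |Lk k ω j| := hω
    have h3 : (((2 : ℤ) ^ h * 16 ^ k : ℤ) : ℝ) < ((|Lk k ω j| : ℤ) : ℝ) := by exact_mod_cast h1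
    push_cast at h3
    exact h3

end Pool.Agent.H97.BR
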