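import Pool.Agent.H76.ND.Targets2
import Pool.Agent.H97.BR.Top

/-!
# Modules NG1 and IRG of Part D: the input `I_REG` of Part E7
-/

open MeasureTheory ProbabilityTheory
open scoped ENNReal

namespace Pool.Agent.H97.BR

open Pool.Agent.H99.NS Pool.Agent.H22.LPP Pool.Agent.H76.ND
open Pool.Agent.H97.NF (PEnv eA eB PN)
open Pool.Agent.H97.ST (Lk oK eK I_REG Rdis RLow RUp)
open Pool.Agent.H95.ND (zc win gl2 Xf PALMs goodAt T_MEA)
open Pool.Agent.H95.INS (Near BxAt)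

theorem exists_kM (M c' : ℝ) (hc' : 0 < c') : ∃ k₂ : ℕ, ∀ k : ℕ, k₂ ≤ k →
    M * (k : ℝ) ≤ Real.exp (c' * k) := by
  obtain ⟨k₂, hk₂⟩ := exists_nat_ge (2 * M / c' ^ 2)
  refine ⟨k₂, fun k hk => ?_⟩
  have h1 : (k₂ : ℝ) ≤ k := by exact_mod_cast hk
  have h2 : 2 * M ≤ k * c' ^ 2 := by
    have := hk₂.trans h1
    rwa [div_le_iff₀ (by positivity)] at this
  have h3 := Real.quadratic_le_exp_of_nonneg (x := c' * k) (by positivity)
  have hk0 : (0 : ℝ) ≤ k := Nat.cast_nonneg k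
  have h4 : 0 ≤ c' * k := by positivity
  have h5 : M * (k : ℝ) ≤ (c' * k) ^ 2 / 2 := by nlinarith
  linarith

theorem mem_win_div (a : ℕ) (x : ℤ) : x ∈ win a (x / 16 ^ a) := by
  have hp : (0 : ℤ) < 16 ^ a := by positivity
  exact ⟨Int.ediv_mul_le x hp.ne', Int.lt_ediv_add_one_mul_self x hp⟩

theorem pf_NG1 (hMEA : T_MEA) (hL : B_LAMM) : T_NG1 := by
  intro c M hM hA hP
  obtain ⟨C, c', hC, hc', K₁, hP⟩ := hP
  obtain ⟨k₂, hk₂⟩ := exists_kM M c' hc'
  refine ⟨2 * C, max (max K₁ k₂) 1, by positivity, ?_⟩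
  intro K a m hK hKa ham j hj
  have hK1 : K₁ ≤ K := (le_max_left _ _).trans ((le_max_left _ _).trans hK)
  have hK2 : k₂ ≤ K := (le_max_right _ _).trans ((le_max_left _ _).trans hK)
  have hK3 : 1 ≤ K := (le_max_right _ _).trans hK
  have ha1 : 1 ≤ a := by omega
  have hj24 : |j| ≤ 24 * 64 ^ (K - 1) := by
    have hp : (0 : ℤ) < 64 ^ (K - 1) := by positivity
    linarith
  set G : ℤ → Set Env := fun w => {ω | ∀ i, a ≤ i → i ≤ a + m →
    ¬ goodAt c (Xf K) a (K - 2) i (zc j a w) ω} with hG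
  have hGm : ∀ w, MeasurableSet (G w) := by
    intro w
    have e1 : G w = ⋂ i ∈ Finset.Icc a (a + m),
        {ω | goodAt c (Xf K) a (K - 2) i (zc j a w) ω}ᶜ := by
      ext ω
      simp only [hG, Set.mem_iInter, Finset.mem_Icc]
      constructor
      · intro h i hi
        exact h i hi.1 hi.2
      · intro h i hi hi'
        exact h i ⟨hi, hi'⟩
    rw [e1]
    refine Finset.measurableSet_biInter _ fun i hi => ?_
    rw [Finset.mem_Icc] at hi
    exact (hMEA c (Xf K) a (K - 2) i (zc j a w) ha1 (by omega)).compl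
  have key : ∀ W : Finset ℤ, ∑ w ∈ W, PN c.q (fun _ => 0)
      {E | Lam (eA E) (H95.ND.oK K) (H95.ND.eK K) j ∈ win a w ∧ E ∈ {E : PEnv | eA E ∈ G w}} ≤
      ENNReal.ofReal (2 * C * Real.exp (-(M * m))) := by
    intro W
    refine (hP K a a m hK1 hKa le_rfl (by omega) j hj24 (fun _ _ => 0)
      (fun w => {E | eA E ∈ G w}) 0 le_rfl (fun w => ?_) (fun _ _ _ => rfl) ?_ W).trans ?_
    · exact (Pool.Agent.H97.NF.measurable_eA) (hGm w)
    · intro w k hk1 hk2 out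
      rw [ENNReal.ofReal_zero]
      refine le_of_eq (measure_mono_null (t := ∅) ?_ measure_empty)
      rintro E ⟨h1, h2, -⟩
      exact h1 k hk1 hk2 h2
    · apply ENNReal.ofReal_le_ofReal
      have h1 : Real.exp (-Real.exp (c' * K)) ≤ Real.exp (-(M * m)) := by
        rw [Real.exp_le_exp]
        have h2 := hk₂ K hK2
        have h3 : (m : ℝ) ≤ K := by
          have : m ≤ K := by omega
          exact_mod_cast this
        have h4 : M * (m : ℝ) ≤ M * K := mul_le_mul_of_nonneg_left h3 hM.le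
        linarith
      rw [mul_zero, zero_add]
      nlinarith
  calc PE c.q {ω | ∀ i, a ≤ i → i ≤ a + m →
        ¬ goodAt c (Xf K) a (K - 2) i (zc j a (Lk K ω j / 16 ^ a)) ω}
      ≤ PE c.q (⋃ w : ℤ, {ω | Lk K ω j ∈ win a w ∧ ω ∈ G w}) := by
        apply measure_mono
        intro ω hω
        rw [Set.mem_iUnion]
        exact ⟨Lk K ω j / 16 ^ a, mem_win_div a _, hω⟩
    _ ≤ ∑' w : ℤ, PE c.q {ω | Lk K ω j ∈ win a w ∧ ω ∈ G w} := measure_iUnion_le _
    _ ≤ ENNReal.ofReal (2 * C * Real.exp (-(M * m))) := by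
        rw [ENNReal.tsum_eq_iSup_sum]
        refine iSup_le fun W => ?_
        refine le_trans (Finset.sum_le_sum fun w _ => ?_) (key W)
        have hm : MeasurableSet {ω | Lk K ω j ∈ win a w ∧ ω ∈ G w} := by
          refine MeasurableSet.inter ?_ (hGm w)
          exact (hL (oK K) (eK K) j).2.1 (MeasurableSet.of_discrete (s := win a w))
        rw [← (Pool.Agent.H97.NF.mp_eA c.q (fun _ => 0)).measure_preimage
          hm.nullMeasurableSet]
        rfl

theorem lk_clip (K : ℕ) (ω : Env) (t : ℤ) :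
    Lk K ω t = Lk K ω (max (oK K).1 (min t (eK K).1)) := by
  have h0 : (oK K).1 ≤ (eK K).1 := by
    have hp : (0 : ℤ) < 64 ^ (K - 1) := by positivity
    change -(32 * 64 ^ (K - 1)) ≤ (32 * 64 ^ (K - 1) : ℤ)
    linarith
  unfold Lk Lam
  have e1 : max (oK K).1 (min (max (oK K).1 (min t (eK K).1)) (eK K).1) =
      max (oK K).1 (min t (eK K).1) := by
    omega
  rw [e1]

theorem reach_oK (K : ℕ) : Reach (oK K) (eK K) := by
  have hP : (0 : ℤ) < 64 ^ (K - 1) := by positivity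
  unfold oK eK
  refine ⟨?_, ?_⟩
  · simp only
    rw [sub_zero, abs_zero]
    linarith
  · exact ⟨32 * 64 ^ (K - 1), by simp only; ring⟩

theorem quarter_exp (M : ℝ) (hM : 60 ≤ M) (h : ℕ) : Real.exp (-(M * h)) ≤ (1 / 4) ^ h := by
  have h1 : Real.exp (-M) ≤ 1 / 4 := by
    rw [Real.exp_neg, one_div]
    apply inv_anti₀ (by norm_num)
    have := Real.add_one_le_exp M
    linarith
  calc Real.exp (-(M * h)) = Real.exp (-M) ^ h := by
        rw [← Real.exp_nat_mul]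
        congr 1
        ring
    _ ≤ (1 / 4) ^ h := pow_le_pow_left₀ (Real.exp_pos _).le h1 h

/-- One core scale: everything except an event of probability `C (1/4) ^ h`. -/
theorem reg_core (hL : B_LAM) (hRDT : T_RDT) (q : ℝ) (hq0 : 0 < q) (hq1 : q < 1)
    (hRG : Pool.Agent.H95.ND.I_RG q) (hTOP : Pool.Agent.H95.ND.I_TOP q) (c : Cst) (M : ℝ)
    (hcq : c.q = q) (hK0 : 1 ≤ c.K0) (hM : 60 ≤ M) (hNG : NG1 c M) :
    ∃ (C : ℝ) (h₀ k₀ : ℕ), 0 < C ∧ ∀ k : ℕ, k₀ ≤ k → ∀ j : ℤ, |j| ≤ 20 * 64 ^ (k - 1) →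
      ∀ a h : ℕ, k ≤ 40 * a → a + 4 * h + 4 ≤ k → h₀ ≤ h →
      PE q {ω | ¬ (Rdis k ω j a h ∧ RLow k ω j (a + 1) h ∧ RUp k ω j (a + 1) h)} ≤
        ENNReal.ofReal (C * (1 / 4) ^ h) := by
  obtain ⟨C1, c1, hC1, hc1, K1, hRG⟩ := hRG 1 one_pos
  obtain ⟨C2, c2, s2, hC2, hc2, hs2, K2, hTOP⟩ := hTOP
  obtain ⟨C2', hC2', htl⟩ := tl_two C2 c2 s2 hC2 hc2 hs2
  obtain ⟨C3, K3, hC3, hNG⟩ := hNG
  obtain ⟨C4, hC4, hRDT⟩ := hRDT q hq0 hq1
  obtain ⟨K5, hK5⟩ := exists_kM 2 c1 hc1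
  -- the strength
  obtain ⟨h₀, hh₀⟩ : ∃ h₀ : ℕ, ∀ h : ℕ, h₀ ≤ h → C4 * (2 * c.K0) ^ 2 * (10201 / 10000) ^ h ≤ 2 ^ h := by
    obtain ⟨n, hn⟩ := pow_unbounded_of_one_lt (C4 * (2 * c.K0) ^ 2)
      (show (1 : ℝ) < 2 * (10000 / 10201) by norm_num)
    refine ⟨n, fun h hh => ?_⟩
    have h1 : (2 * (10000 / 10201) : ℝ) ^ n ≤ (2 * (10000 / 10201)) ^ h :=
      pow_le_pow_right₀ (by norm_num) hh
    have h2 := hn.le.trans h1
    calc C4 * (2 * c.K0) ^ 2 * (10201 / 10000) ^ h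
        ≤ (2 * (10000 / 10201)) ^ h * (10201 / 10000) ^ h :=
          mul_le_mul_of_nonneg_right h2 (by positivity)
      _ = 2 ^ h := by rw [← mul_pow]; norm_num
  refine ⟨C1 + C2' + C3, h₀, max (max K1 K2) (max (max K3 K5) 1200), by positivity, ?_⟩
  intro k hk j hj a h hka hah hh
  have k1 : K1 ≤ k := (le_max_left _ _).trans ((le_max_left _ _).trans hk)
  have k2 : K2 ≤ k := (le_max_right _ _).trans ((le_max_left _ _).trans hk)
  have k3 : K3 ≤ k :=
    (le_max_left _ _).trans ((le_max_left _ _).trans ((le_max_right _ _).trans hk))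
  have k5 : K5 ≤ k :=
    (le_max_right _ _).trans ((le_max_left _ _).trans ((le_max_right _ _).trans hk))
  have k6 : 1200 ≤ k := (le_max_right _ _).trans ((le_max_right _ _).trans hk)
  have hhk : h ≤ k := by omega
  have hXf : (64 : ℤ) ≤ Xf k := by
    unfold Xf
    calc (64 : ℤ) = 4 ^ 3 := by norm_num
      _ ≤ 4 ^ (k / 400) := pow_le_pow_right₀ (by norm_num) (by omega)
  have hXa : 4 * Xf k ≤ 4 ^ a := by
    unfold Xf
    rw [← pow_succ']
    exact pow_le_pow_right₀ (by norm_num) (by omega)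
  -- the three events
  set E1 : Set Env := {ω | ∃ a : ℕ, k ≤ 40 * a ∧ a ≤ k ∧ ∃ g, Near ω (H95.ND.oK k) (H95.ND.eK k)
    (1 * 4 ^ a) g ∧ ¬ H95.ND.RGG (Xf k) a (-lv k) (lv k) g} with hE1
  set E2 : Set Env := {ω | ∃ t, -lv k ≤ t ∧ t ≤ lv k ∧
    2 ^ h * 16 ^ k < |(Lam ω (H95.ND.oK k) (H95.ND.eK k) t : ℝ)|} with hE2
  set E3 : Set Env := {ω | ∀ i, a ≤ i → i ≤ a + h →
      ¬ goodAt c (Xf k) a (k - 2) i (zc j a (Lk k ω j / 16 ^ a)) ω} with hE3
  have hsub : {ω | ¬ (Rdis k ω j a h ∧ RLow k ω j (a + 1) h ∧ RUp k ω j (a + 1) h)} ⊆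
      E1 ∪ (E2 ∪ E3) := by
    intro ω hω
    by_contra hcon
    rw [Set.mem_union, Set.mem_union, not_or, not_or] at hcon
    obtain ⟨n1, n2, n3⟩ := hcon
    apply hω
    have hgeo := (hL ω (oK k) (eK k) (reach_oK k)).1
    have hR : H95.ND.RGG (Xf k) a (-lv k) (lv k) (Lk k ω) := by
      by_contra hR
      apply n1
      refine ⟨a, hka, by omega, Lk k ω, ⟨hgeo.1, ?_⟩, hR⟩
      have h1 : wt ω (oK k).1 (eK k).1 (Lk k ω) = T ω (oK k) (eK k) := hgeo.2
      have h2 : (0 : ℝ) < 4 ^ a := by positivity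
      change T ω (oK k) (eK k) - 1 * 4 ^ a ≤ wt ω (oK k).1 (eK k).1 (Lk k ω)
      rw [h1]
      linarith
    have hB : ∀ t, |(Lk k ω t : ℝ)| ≤ 2 ^ h * 16 ^ k := by
      intro t
      rw [lk_clip]
      by_contra hcon
      rw [not_le] at hcon
      apply n2
      have h0 : (oK k).1 ≤ (eK k).1 := by
        have hp : (0 : ℤ) < 64 ^ (k - 1) := by positivity
        change -(32 * 64 ^ (k - 1)) ≤ (32 * 64 ^ (k - 1) : ℤ)
        linarith
      exact ⟨max (oK k).1 (min t (eK k).1), le_max_left _ _, max_le h0 (min_le_right _ _), hcon⟩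
    simp only [hE3, Set.mem_ofPred_eq, not_forall, not_not] at n3
    obtain ⟨k₁, hk1, hk2, hg⟩ := n3
    have hx1 : (1 : ℝ) ≤ 2 ^ h := one_le_pow₀ (by norm_num)
    refine hRDT c.K0 (2 ^ h) (Xf k) k a k₁ j ω h hK0 hx1 hXf hXa (by omega) hk1 (by omega) hj hR
      hB ?_ ?_
    · refine le_trans ?_ (hh₀ h hh)
      have e1 : ((101 : ℝ) / 100) ^ (k₁ - a) ≤ (101 / 100) ^ h :=
        pow_le_pow_right₀ (by norm_num) (by omega)
      have e2 : (2 : ℝ) ^ h * (3 / 8) ^ (k - a) ≤ 1 := by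
        calc (2 : ℝ) ^ h * (3 / 8) ^ (k - a) ≤ 2 ^ h * (3 / 8) ^ h := by
              apply mul_le_mul_of_nonneg_left _ (by positivity)
              exact pow_le_pow_of_le_one (by norm_num) (by norm_num) (by omega)
          _ = (3 / 4) ^ h := by rw [← mul_pow]; norm_num
          _ ≤ 1 := pow_le_one₀ (by norm_num) (by norm_num)
      have e3 : (1 : ℝ) ≤ (101 / 100) ^ h := one_le_pow₀ (by norm_num)
      have e4 : c.K0 * (101 / 100) ^ (k₁ - a) + 2 ^ h * (3 / 8) ^ (k - a) ≤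
          2 * c.K0 * (101 / 100) ^ h := by
        have h1 : c.K0 * (101 / 100) ^ (k₁ - a) ≤ c.K0 * (101 / 100) ^ h :=
          mul_le_mul_of_nonneg_left e1 (by linarith)
        have h2 : 1 ≤ c.K0 * (101 / 100) ^ h := one_le_mul_of_one_le_of_one_le hK0 e3
        linarith
      have e5 : (0 : ℝ) ≤ c.K0 * (101 / 100) ^ (k₁ - a) + 2 ^ h * (3 / 8) ^ (k - a) := by
        positivity
      calc C4 * (c.K0 * (101 / 100) ^ (k₁ - a) + 2 ^ h * (3 / 8) ^ (k - a)) ^ 2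
          ≤ C4 * (2 * c.K0 * (101 / 100) ^ h) ^ 2 :=
            mul_le_mul_of_nonneg_left (pow_le_pow_left₀ e5 e4 2) hC4.le
        _ = C4 * (2 * c.K0) ^ 2 * (((101 / 100) ^ 2 : ℝ)) ^ h := by
            rw [← pow_mul, mul_comm 2 h, pow_mul]
            ring
        _ = C4 * (2 * c.K0) ^ 2 * (10201 / 10000) ^ h := by norm_num
    · have h1 : GN c.q c.K0 (Xf k) a (k - 2) k₁
          (shiftE (zc j a (Lk k ω j / 16 ^ a)) ω) := hg.1
      rw [hcq] at h1
      exact h1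
  -- probabilities
  have b1 : PE q E1 ≤ ENNReal.ofReal (C1 * (1 / 4) ^ h) := by
    refine (hRG k k1).trans (ENNReal.ofReal_le_ofReal ?_)
    apply mul_le_mul_of_nonneg_left _ hC1.le
    have h1 : Real.exp (-Real.exp (c1 * k)) ≤ Real.exp (-(2 * h)) := by
      rw [Real.exp_le_exp]
      have h2 := hK5 k k5
      have h3 : (h : ℝ) ≤ k := by exact_mod_cast hhk
      linarith
    refine h1.trans ?_
    have h4 : Real.exp (-2) ≤ 1 / 4 := by
      rw [Real.exp_neg, one_div]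
      apply inv_anti₀ (by norm_num)
      have h5 := Real.quadratic_le_exp_of_nonneg (x := 2) (by norm_num)
      linarith
    calc Real.exp (-(2 * h)) = Real.exp (-2) ^ h := by
          rw [← Real.exp_nat_mul]
          congr 1
          ring
      _ ≤ (1 / 4) ^ h := pow_le_pow_left₀ (Real.exp_pos _).le h4 h
  have b2 : PE q E2 ≤ ENNReal.ofReal (C2' * (1 / 4) ^ h) :=
    (hTOP k k2 (2 ^ h) (by positivity)).trans (ENNReal.ofReal_le_ofReal (htl h))
  have b3 : PE q E3 ≤ ENNReal.ofReal (C3 * (1 / 4) ^ h) := by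
    rw [← hcq]
    refine (hNG k a h k3 hka (by omega) j hj).trans (ENNReal.ofReal_le_ofReal ?_)
    exact mul_le_mul_of_nonneg_left (quarter_exp M hM h) hC3.le
  refine (measure_mono hsub).trans ((measure_union_le _ _).trans ((add_le_add b1
    ((measure_union_le _ _).trans (add_le_add b2 b3))).trans ?_))
  rw [← ENNReal.ofReal_add (by positivity) (by positivity),
    ← ENNReal.ofReal_add (by positivity) (by positivity)]
  apply ENNReal.ofReal_le_ofReal
  apply le_of_eq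
  ring

theorem pf_IRG (hL : B_LAM) (hRDT : T_RDT) : T_IRG := by
  intro q hq0 hq1 hRG hTOP ⟨c, M, hcq, hK0, hM, hNG⟩
  obtain ⟨C, h₀, k₀, hC, hcore⟩ := reg_core hL hRDT q hq0 hq1 hRG hTOP c M hcq hK0 hM hNG
  refine ⟨C + 4 ^ h₀, 1, 5, max k₀ 1200, by positivity, one_pos, ?_⟩
  intro k hk j hj a h hka hah hhk
  have hk0 : k₀ ≤ k := (le_max_left _ _).trans hk
  have hk1 : 1200 ≤ k := (le_max_right _ _).trans hk
  have htriv : h < h₀ → ∀ S : Set Env, PE q S ≤ ENNReal.ofReal ((C + 4 ^ h₀) * (1 / 4) ^ h) := by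
    intro hh S
    refine prob_le_one.trans ?_
    rw [← ENNReal.ofReal_one]
    apply ENNReal.ofReal_le_ofReal
    have h1 : (4 : ℝ) ^ h * (1 / 4) ^ h = 1 := by rw [← mul_pow]; norm_num
    have h2 : (4 : ℝ) ^ h ≤ 4 ^ h₀ := pow_le_pow_right₀ (by norm_num) hh.le
    have h3 : (0 : ℝ) < (1 / 4) ^ h := by positivity
    nlinarith [mul_le_mul_of_nonneg_right h2 h3.le, mul_pos hC h3]
  have hmono : ENNReal.ofReal (C * (1 / 4) ^ h) ≤
      ENNReal.ofReal ((C + 4 ^ h₀) * (1 / 4) ^ h) := by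
    apply ENNReal.ofReal_le_ofReal
    have h3 : (0 : ℝ) < (1 / 4) ^ h := by positivity
    have h4 : (0 : ℝ) < 4 ^ h₀ := by positivity
    nlinarith [mul_pos h4 h3]
  rcases lt_or_ge h h₀ with hh | hh
  · exact ⟨htriv hh _, fun _ => ⟨htriv hh _, htriv hh _⟩⟩
  · refine ⟨?_, fun _ => ?_⟩
    · refine le_trans (measure_mono ?_) ((hcore k hk0 j hj a h (by omega) (by omega) hh).trans
        hmono)
      intro ω hω hcon
      exact hω hcon.1
    · have e1 : a - 1 + 1 = a := by omega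
      have h5 := (hcore k hk0 j hj (a - 1) h (by omega) (by omega) hh).trans hmono
      rw [e1] at h5
      refine ⟨le_trans (measure_mono ?_) h5, le_trans (measure_mono ?_) h5⟩
      · intro ω hω hcon
        exact hω hcon.2.1
      · intro ω hω hcon
        exact hω hcon.2.2

end Pool.Agent.H97.BR
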